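import Pool.Agent.Results.MP_9c5ecf_lc.Sigma3

/-!
The former hand-in Sigma1 (Q1 under I1), now a special case of the hand-in Sigma3.
-/

namespace Pool.Agent.Lib.MP_9c5ecf_lc.Retired.Sigma1

open Pool.Agent.I1PSP

universe u

theorem result (l : Ordinal.{u}) (j : ZFSet.{u} → ZFSet.{u}) (hj : IsI1 l j)
    (φ : Fml) (hφ : IsSigma1 φ) (z : ℕ → ZFSet.{u}) (hz : ∀ i, z i ∈ ZFSet.vonNeumann (l + 1))
    (X : Set ZFSet.{u}) (hX : X = {y | Sat Set.univ φ (cons y z)})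
    (hsub : ∀ y ∈ X, y ⊆ l.toZFSet) (hcard : Cardinal.mk (Set.Iio l) < Cardinal.mk X) :
    HasPerfectEmbedding l X :=
  Pool.Agent.Results.MP_9c5ecf_lc.Sigma3.result l j (S3.isSigmaElem_of_isI1 hj 3) φ hφ z hz X hX
    hsub hcard

end Pool.Agent.Lib.MP_9c5ecf_lc.Retired.Sigma1
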